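import Pool.Agent.helper99.WN.Basic2

/-!
# Row wn:C2 (MP_5c1f29_al): backwards through a closing edge
-/

set_option autoImplicit false

namespace Pool.Agent.WN

theorem C2_step {V : Type} {k : ℕ} {R : V → Lt k → V → Prop} {W : ℤ → Lt k} {N n : ℕ}
    (hCA : CA_stmt) (hH : Hyp R W N n) {v y : V} {i : ℤ} {l m q : ℕ} {t : ℤ}
    (hA : Arc R W v i y l) (hm : m + l + N + 1 = n * N) (hq : q < N) (h2N : 2 * N ≤ m)
    (hWt : W t = iv (W (i + m))) (hWq : W (t + q) = iv (W (i + m - q)))
    {p p' : V × List (Lt k)} {a : Lt k} (hR : Rp R W N n p a p') (hp : p = (v, fw W i (m - q)))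
    (ha : a = W (t + q + 1)) :
    p' = (v, fw W i (m - (q + 1))) ∧ a = iv (W (i + m - (q + 1))) := by
  have hW := hH.wd
  have hCA3 := (hCA V k R W N n hH).2.2.1
  have hge : N ≤ m - q := by omega
  cases hR with
  | base h =>
    exfalso
    have h1 := congrArg (fun x : V × List (Lt k) => x.2.length) hp
    simp only [List.length_nil, fw_length] at h1
    omega
  | @down v' a u h =>
    exfalso
    have h1 : v' = v := congrArg Prod.fst hp
    have h2 : u = fw W i (m - q) := congrArg Prod.snd hp
    subst h1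
    have hul : u.length = m - q := by rw [h2, fw_length]
    obtain ⟨i', y', l', h3, h4, h5, h6⟩ := al_long h (by rw [hul]; exact hge)
    rw [hul] at h4 h5 h6
    have h7 : fw W i (m - q) = fw W i' (m - q) := by rw [← h2]; exact h4
    have h8 := (fw_inj hW hge h7).2
    obtain ⟨-, h9⟩ := hCA3 _ _ _ _ _ _ _ hA h3 h8
    subst h9
    have h10 : W (i' + ((m - q : ℕ) : ℤ)) = W (i + m - q) := by
      symm
      apply hW.per_dvd
      have : i + m - q - (i' + ((m - q : ℕ) : ℤ)) = i - i' := by omega
      rw [this]; exact h8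
    apply hW.red (t + q)
    rw [← ha, h5, h10, hWq, iv_iv]
  | @up v' b u h =>
    have h1 : v' = v := congrArg Prod.fst hp
    have h2 : b :: u = fw W i (m - q) := congrArg Prod.snd hp
    subst h1
    have h3 : m - q = (m - (q + 1)) + 1 := by omega
    rw [h3] at h2
    have h4 : b :: u = W (i + ((m - (q + 1) : ℕ) : ℤ)) :: fw W i (m - (q + 1)) := h2
    rw [List.cons.injEq] at h4
    refine ⟨by rw [h4.2], ?_⟩
    rw [h4.1]
    congr 2
    omega
  | @cf v' i' y' l' m' h h' =>
    exfalso
    have h1 : v' = v := congrArg Prod.fst hp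
    have h2 : fw W i' m' = fw W i (m - q) := congrArg Prod.snd hp
    subst h1
    have h3 := fw_inj hW hge h2.symm
    obtain ⟨-, h9⟩ := hCA3 _ _ _ _ _ _ _ hA h h3.2
    subst h9
    have hq0 : q = 0 := by omega
    subst hq0
    have h10 : W (i' + (m' : ℤ)) = W (i + m) := by
      symm
      apply hW.per_dvd
      have : i + m - (i' + (m' : ℤ)) = i - i' := by omega
      rw [this]; exact h3.2
    apply hW.red t
    rw [hWt, iv_iv, ← h10, ha]
    congr 1
    simp
  | @cb v' i' y' l' m' h h' =>
    exfalso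
    have h2 : bw W (i' - l') N = fw W i (m - q) := congrArg Prod.snd hp
    exact fw_ne_bw hW _ _ _ h2.symm

theorem C2 (hCA : CA_stmt) (hCB : CB_stmt) : C2_stmt := by
  intro V k R W N n hH s e z hz t v i y l m hs he hA hm hzt hzt1 hWt
  have hW := hH.wd
  have hl := (hCA V k R W N n hH).2.1 v i y l hA
  have h7 := hH.seven
  have hN := hW.pos
  have h2N : 2 * N ≤ m := by
    have h1 : (m : ℤ) + l + N + 1 = n * N := by exact_mod_cast hm
    have h2 : (l : ℤ) < (n : ℤ) * N - 3 * N := by
      have : ((n : ℤ) - 3) * N = n * N - 3 * N := by ring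
      rwa [this] at hl
    have h3 : (2 * N : ℤ) ≤ m := by linarith
    exact_mod_cast h3
  have key : ∀ q : ℕ, q < N → z (t + q + 1) = (v, fw W i (m - q)) ∧ W (t + q) = iv (W (i + m - q)) := by
    intro q
    induction q with
    | zero =>
      intro _
      refine ⟨?_, ?_⟩
      · rw [Nat.cast_zero, add_zero, Nat.sub_zero]
        exact hzt1
      · rw [Nat.cast_zero, add_zero, sub_zero]
        exact hWt
    | succ q ih =>
      intro hq
      obtain ⟨h1, h2⟩ := ih (by omega)
      have h3 := hz (t + q + 1) (by omega) (by omega)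
      obtain ⟨h4, h5⟩ := C2_step hCA hH hA hm (by omega) h2N hWt h2 h3 h1 rfl
      refine ⟨?_, ?_⟩
      · rw [← h4]
        congr 1
        push_cast
        ring
      · rw [Nat.cast_succ, ← add_assoc]
        exact h5
  exact hW.pb t (i + m) (fun q hq => (key q hq).2)

end Pool.Agent.WN
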